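import Pool.Agent.H51.EM.Targets

set_option autoImplicit false

open Polynomial Finset

namespace Pool.Agent.H13.EM

open Pool.Agent.H51.EM
open Pool.Agent.H51.EI (Disc toC ev plen rts vv ResP FR RP FTI phq thq KK KX)

theorem pf_MSR (hPAR : T_PAR) (hFOUR : T_FOUR) : T_MSR := by
  intro O t x y hD hFR hRP ht ht0 hx hy hxi hyi
  obtain ⟨π, hπ⟩ := hPAR O t x y hD hRP ht ht0 hx hy hxi hyi
  obtain ⟨J0, hJ02, hJ0⟩ := hFOUR O (Complex.exp t) hD hFR π
  set M : ℕ := 10 ^ 12 * qq π with hM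
  set w : Fin 2 → Fin 2 → ℂ := fun i j => x i * y j - (if i = j then t else 0) with hw
  set W : ℝ := ∑ i : Fin 2, ∑ j : Fin 2, |(w i j).re| with hW
  set L : ℝ := |t.re| with hL
  have hWnn : 0 ≤ W := Finset.sum_nonneg fun i _ => Finset.sum_nonneg fun j _ => abs_nonneg _
  have hLnn : 0 ≤ L := abs_nonneg _
  have hWle : ∀ i j, |(w i j).re| ≤ W := by
    intro i j
    have h1 : |(w i j).re| ≤ ∑ j' : Fin 2, |(w i j').re| :=
      Finset.single_le_sum (f := fun j' => |(w i j').re|) (fun j' _ => abs_nonneg _)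
        (Finset.mem_univ j)
    have h2 : (∑ j' : Fin 2, |(w i j').re|) ≤ W :=
      Finset.single_le_sum (f := fun i' => ∑ j' : Fin 2, |(w i' j').re|)
        (fun i' _ => Finset.sum_nonneg fun j _ => abs_nonneg _) (Finset.mem_univ i)
    exact h1.trans h2
  set K : ℝ := (π.r : ℝ) ^ 5 * (J0 : ℝ) ^ 20 * 2 ^ (20 * M) with hK
  have hKnn : 0 ≤ K := by positivity
  obtain ⟨n, hn⟩ := pow_unbounded_of_one_lt (K + L + W) (one_lt_two (α := ℝ))
  have hr0 : (0 : ℝ) ≤ (π.r : ℝ) := Nat.cast_nonneg _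
  have hr1 : 1 ≤ π.r := π.hr
  refine ⟨((n + 20 * M : ℕ) : ℝ), ?_⟩
  intro H hH u v huv
  by_contra hcon
  push Not at hcon
  have hH0 : 0 ≤ H := by linarith
  have hH1 : 1 ≤ H := by linarith
  have hHC : K * H ^ (20 * M) + L + W ≤ H ^ ((n + 20 * M : ℕ) : ℝ) := by
    rw [Real.rpow_natCast, pow_add]
    have h1 : (1 : ℝ) ≤ H ^ (20 * M) := one_le_pow₀ hH1
    have h2 : (2 : ℝ) ^ n ≤ H ^ n := pow_le_pow_left₀ (by norm_num) hH n
    calc K * H ^ (20 * M) + L + W ≤ K * H ^ (20 * M) + L * H ^ (20 * M) + W * H ^ (20 * M) := by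
          nlinarith [mul_nonneg hLnn (sub_nonneg.mpr h1), mul_nonneg hWnn (sub_nonneg.mpr h1)]
      _ = (K + L + W) * H ^ (20 * M) := by ring
      _ ≤ 2 ^ n * H ^ (20 * M) := by
          apply mul_le_mul_of_nonneg_right hn.le (by positivity)
      _ ≤ H ^ n * H ^ (20 * M) := mul_le_mul_of_nonneg_right h2 (by positivity)
  set h : ℕ := ⌈H⌉₊ with hh
  have hHh : H ≤ h := Nat.le_ceil H
  have hh2 : (h : ℝ) ≤ 2 * H := by
    have := Nat.ceil_lt_add_one hH0
    rw [← hh] at this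
    linarith
  have hh1 : 1 ≤ h := by
    have : (1 : ℝ) ≤ h := hH1.trans hHh
    exact_mod_cast this
  set J : ℕ := J0 * h ^ M with hJ
  have hJJ0 : J0 ≤ J := Nat.le_mul_of_pos_right _ (pow_pos hh1 M)
  have hhJ : h ^ M ≤ J := Nat.le_mul_of_pos_left _ (by omega)
  -- the values `u` are not zero
  have hu0 : ∀ i j, u i j ≠ 0 := by
    intro i j h0
    have h1 := hcon i j
    rw [h0] at h1
    simp only [ZeroMemClass.coe_zero, zero_div, sub_zero] at h1
    rw [Complex.norm_exp] at h1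
    have h2 := Real.exp_lt_exp.mp h1
    have h3 : (w i j).re < -(H ^ ((n + 20 * M : ℕ) : ℝ)) := h2
    have h4 := hWle i j
    have h5 := neg_abs_le (w i j).re
    have h6 : 0 ≤ K * H ^ (20 * M) := by positivity
    linarith
  have hbound : ∀ (z : O) (j : ℕ), ‖(z : ℂ)‖ ≤ H → J ≤ j →
      ‖(z : ℂ)‖ ^ (10 ^ 12 * qq π) ≤ ((π.r * j : ℕ) : ℝ) := by
    intro z j hz hj
    have h1 : ‖(z : ℂ)‖ ^ M ≤ (h : ℝ) ^ M :=
      pow_le_pow_left₀ (norm_nonneg _) (hz.trans hHh) M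
    have h2 : h ^ M ≤ π.r * j := (hhJ.trans hj).trans (Nat.le_mul_of_pos_left _ hr1)
    have h3 : (h : ℝ) ^ M ≤ ((π.r * j : ℕ) : ℝ) := by exact_mod_cast h2
    exact h1.trans h3
  refine hJ0 J hJJ0 u v ?_
  intro j hj1 hj2
  refine ⟨hu0, fun i k => (huv i k).1, fun i k => hD _ (hu0 i k), fun i k => hD _ (huv i k).1,
    fun i k => hbound _ j (huv i k).2.1 hj1, fun i k => hbound _ j (huv i k).2.2 hj1, ?_⟩
  intro i k
  rw [hπ i k]
  have h1 : Complex.exp (x i * y k) = Complex.exp t ^ (if i = k then 1 else 0 : ℕ) *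
      Complex.exp (x i * y k - (if i = k then t else 0)) := by
    split_ifs with hik
    · rw [pow_one, ← Complex.exp_add]
      congr 1
      ring
    · simp
  rw [h1, ← mul_sub, norm_mul]
  have h2 : ‖Complex.exp t ^ (if i = k then 1 else 0 : ℕ)‖ ≤ Real.exp L := by
    split_ifs with hik
    · rw [pow_one, Complex.norm_exp]
      exact Real.exp_le_exp.mpr (le_abs_self _)
    · rw [pow_zero, norm_one]
      exact Real.one_le_exp hLnn
  have h3 := (hcon i k).le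
  calc ‖Complex.exp t ^ (if i = k then 1 else 0 : ℕ)‖ *
        ‖Complex.exp (x i * y k - (if i = k then t else 0)) - (u i k : ℂ) / (v i k : ℂ)‖
      ≤ Real.exp L * Real.exp (-(H ^ ((n + 20 * M : ℕ) : ℝ))) :=
        mul_le_mul h2 h3 (norm_nonneg _) (Real.exp_pos _).le
    _ = Real.exp (L + -(H ^ ((n + 20 * M : ℕ) : ℝ))) := (Real.exp_add _ _).symm
    _ ≤ Real.exp (-(((π.r * j : ℕ) : ℝ) ^ 5)) := by
        apply Real.exp_le_exp.mpr
        have h4 : ((π.r * j : ℕ) : ℝ) ^ 5 ≤ K * H ^ (20 * M) := by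
          have h5 : ((π.r * j : ℕ) : ℝ) ≤ (π.r : ℝ) * (J : ℝ) ^ 4 := by
            have : π.r * j ≤ π.r * J ^ 4 := Nat.mul_le_mul_left _ hj2
            exact_mod_cast this
          have h6 : (J : ℝ) ≤ (J0 : ℝ) * (2 * H) ^ M := by
            rw [hJ]
            push_cast
            exact mul_le_mul_of_nonneg_left (pow_le_pow_left₀ (Nat.cast_nonneg _) hh2 M)
              (Nat.cast_nonneg _)
          have h7 : (J : ℝ) ^ 20 ≤ ((J0 : ℝ) * (2 * H) ^ M) ^ 20 :=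
            pow_le_pow_left₀ (Nat.cast_nonneg _) h6 20
          calc ((π.r * j : ℕ) : ℝ) ^ 5 ≤ ((π.r : ℝ) * (J : ℝ) ^ 4) ^ 5 :=
                pow_le_pow_left₀ (Nat.cast_nonneg _) h5 5
            _ = (π.r : ℝ) ^ 5 * (J : ℝ) ^ 20 := by ring
            _ ≤ (π.r : ℝ) ^ 5 * ((J0 : ℝ) * (2 * H) ^ M) ^ 20 :=
                mul_le_mul_of_nonneg_left h7 (by positivity)
            _ = K * H ^ (20 * M) := by
                rw [hK, mul_pow, mul_pow, mul_pow, ← pow_mul, ← pow_mul, mul_comm M 20]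
                ring
        linarith

end Pool.Agent.H13.EM
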